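import Pool.Agent.Helper65.HF.StA

set_option autoImplicit false

namespace Pool.Agent.Helper5.HF

open MvPolynomial Pool.Agent.Helper45 Pool.Agent.Helper65.HF

theorem hCNV : Pool.Agent.Helper65.HF.sCNV := by
  intro hE hR F _ N c V hV
  obtain ⟨hR1, hR2, hR3, -, -⟩ := hR N
  have hfin : Finite {m : Fin N →₀ ℕ // m.degree = c} := finite_degree c
  have hft : Fintype {m : Fin N →₀ ℕ // m.degree = c} := Fintype.ofFinite _
  let L : MvPolynomial (Fin N) F →ₗ[F] ({m : Fin N →₀ ℕ // m.degree = c} → F) :=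
    { toFun := fun f i => f.coeff i.1
      map_add' := fun f g => by
        funext i
        simp
      map_smul' := fun a f => by
        funext i
        simp }
  have hL : ∀ (f : MvPolynomial (Fin N) F) (i : {m : Fin N →₀ ℕ // m.degree = c}), L f i = f.coeff i.1 :=
    fun _ _ => rfl
  have hzero : ∀ f ∈ V, ∀ b : Fin N →₀ ℕ, b.degree ≠ c → f.coeff b = 0 := by
    intro f hf b hb
    have h1 : f.IsHomogeneous c := (mem_homogeneousSubmodule c f).1 (hV hf)
    exact h1.coeff_eq_zero hb
  have hinj : Function.Injective (L.domRestrict V) := by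
    rw [← LinearMap.ker_eq_bot, LinearMap.ker_eq_bot']
    rintro ⟨f, hf⟩ h
    have h1 : L f = 0 := h
    apply Subtype.ext
    change f = 0
    ext b
    rw [coeff_zero]
    by_cases hb : b.degree = c
    · have h2 := congrFun h1 ⟨b, hb⟩
      exact h2
    · exact hzero f hf b hb
  have hdim : Module.finrank F (V.map L) = Module.finrank F V := by
    rw [← LinearMap.finrank_range_of_inj hinj, LinearMap.range_domRestrict]
  have key := hE F {m : Fin N →₀ ℕ // m.degree = c} (fun i b => RL i.1 b.1) (fun i => hR1 i.1)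
    (fun i b d => hR2 i.1 b.1 d.1) (fun i b => by
      rcases hR3 i.1 b.1 with h | h | h
      · exact Or.inl (Subtype.ext h)
      · exact Or.inr (Or.inl h)
      · exact Or.inr (Or.inr h)) (V.map L)
  rw [← hdim, ← key]
  refine Nat.card_congr (((Equiv.subtypeSubtypeEquivSubtypeInter (fun m : Fin N →₀ ℕ => m.degree = c)
    (fun m => ∃ f ∈ V, f.coeff m ≠ 0 ∧ ∀ b, RL m b → f.coeff b = 0)).symm).trans
    (Equiv.subtypeEquivRight ?_))
  rintro ⟨m, hm⟩
  constructor
  · rintro ⟨f, hf, h1, h2⟩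
    exact ⟨L f, ⟨f, hf, rfl⟩, h1, fun b hb => h2 b.1 hb⟩
  · rintro ⟨_, ⟨f, hf, rfl⟩, h1, h2⟩
    refine ⟨f, hf, h1, fun b hb => ?_⟩
    by_cases hbc : b.degree = c
    · exact h2 ⟨b, hbc⟩ hb
    · exact hzero f hf b hbc

end Pool.Agent.Helper5.HF
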